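import Pool.Agent.W606.PS.Stm

/-!
Project PS, piece PS-CASE2: the second case of the step.
-/

set_option autoImplicit false

open Set Relation Pool.Agent.W606.PS

namespace Pool.Agent.W639.PS.Case2

theorem con_compl {V T : Type} {G : SimpleGraph V} {tv : T → Fin 3 → V} (hS : Sph G tv)
    {Om : Set V} {Z : Fin 3 → Set V} (hR : RD3 G tv Om Z) : Con G Omᶜ := by
  obtain ⟨t, s, hs⟩ := hR.rain
  have hne : ∀ i j, i ≠ j → G.Adj (tv t (s i)) (tv t (s j)) := by
    intro i j hij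
    rcases hS.clos t (s i) (s j) with e | e
    · exfalso
      exact Set.disjoint_left.1 (hR.disj i j hij) (hs i) (e ▸ hs j)
    · exact e
  have h01 : Con G (Z 0 ∪ Z 1) := (hR.con 0).union_tch (hR.con 1)
    ⟨_, hs 0, _, hs 1, hne 0 1 (by decide)⟩
  have h012 : Con G (Z 0 ∪ Z 1 ∪ Z 2) := h01.union_tch (hR.con 2)
    ⟨_, Or.inl (hs 0), _, hs 2, hne 0 2 (by decide)⟩
  have : Omᶜ = Z 0 ∪ Z 1 ∪ Z 2 := by
    rw [← hR.cov]
    ext v
    simp only [mem_iUnion, mem_union]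
    constructor
    · rintro ⟨i, hi⟩
      fin_cases i
      · exact Or.inl (Or.inl hi)
      · exact Or.inl (Or.inr hi)
      · exact Or.inr hi
    · rintro ((h | h) | h)
      · exact ⟨0, h⟩
      · exact ⟨1, h⟩
      · exact ⟨2, h⟩
  rw [this]
  exact h012

theorem main (h : S_SEP2) (h' : S_C2A) : S_CASE2 := by
  intro V T _ G tv hS k hk hsep Om Z hR f col leg hL t hrain i hi hfi
  obtain ⟨s, hs⟩ := hrain
  change ∀ i, col (tv t (s i)) = i at hs
  have hadj : ∀ i j, i ≠ j → G.Adj (tv t (s i)) (tv t (s j)) := by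
    intro i j hij
    rcases hS.clos t (s i) (s j) with e | e
    · exfalso
      apply hij
      rw [← hs i, ← hs j, e]
    · exact e
  obtain ⟨hh, La, L, h1, h2, h3, h4, h5, h6, h7, h8, h9, h10, h11⟩ :=
    h' V G hS.conn k hk hsep Om Z (con_compl hS hR) hR.cov f col leg hL
      (fun i => tv t (s i)) hs hadj (s.symm i) (by simpa using hi) (by simpa using hfi)
  refine ⟨La ∪ ⋃ i, L i, hh, ?_, ?_, h1, h2, h10, h11, ?_⟩
  · exact union_subset h3 (iUnion_subset h5)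
  · obtain ⟨u, hu⟩ := h4.1
    exact ⟨u, Or.inl hu⟩
  · intro Om' hO'
    obtain ⟨j, hj, hj'⟩ := h V T G tv hS Om La Z L hR h5 h6 h7 h3 h4 h8 h9 Om' hO'
    refine ⟨j, ?_, hj'⟩
    rintro ⟨u, hu, v, hv, e⟩
    exact hj ⟨u, hu, v, Or.inl hv, e⟩

end Pool.Agent.W639.PS.Case2
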